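import Mathlib
import Pool.Agent.R504.Mahler
import Pool.Agent.R504.MahlerSync
import Pool.Agent.R504.MahlerEps

set_option autoImplicit false

/-!
# Unbounded second binary digit for `m = 1023` (MP_8a294c_nt)

For `k = 5`, `m = 2^(2k) - 1 = 1023`, the values `u_m(n)`, `n ≥ 1`, are not bounded.

Proof. Modulo `2^K` the state reached after reading the lowest digits of `n ≥ 1` is a power series with
purely periodic coefficients, and sufficiently many zero digits bring a purely periodic series `H` to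
`H(0) ε`, where `ε` is a fixed series. So `c(2^j + n) ≡ U c(n) (mod 2^K)` for `n ≥ 1` and large `j`,
where `U` does not depend on `n`. Modulo `2^14` the series `ε` and hence `U` can be found explicitly:
`U ≡ -4097`. So `U^2 = 1 + 2^13 (odd)`, and as `c(34) = 2^11 q` with `q ≡ 1 (mod 2^13)`, some
`U^(2r) q` is congruent to `1` modulo `2^K`.
-/

namespace Pool.Agent.Results.MP_8a294c_nt.UnboundedForFive

open PowerSeries Pool.Agent.R504

/-- `c_m(n)`, the coefficient of `x^n` in `(1 - x)^(-m) ∏_j (1 - x^(2^j))^(-m)`; the factors with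
`j > n` do not influence this coefficient and are omitted -/
noncomputable def c (m n : ℕ) : ℤ :=
  coeff n (invOfUnit ((1 - X) ^ m * ∏ j ∈ Finset.range (n + 1), (1 - X ^ 2 ^ j) ^ m : ℤ⟦X⟧) 1)

/-- the odd part of an integer -/
def oddPart (z : ℤ) : ℤ := z / 2 ^ padicValInt 2 z

/-- `u_m(n) = ν_2(q - 1)`, `q` being the odd part of `c_m(n)`; it is `⊤` if `q = 1` -/
noncomputable def u (m n : ℕ) : ℕ∞ := emultiplicity (2 : ℤ) (oddPart (c m n) - 1)

/-! ### the value `c_1023(34)` -/

open MahlerSync in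
lemma R_deriv (m : ℕ) : (1 - X ^ 2) * d⁄dX ℤ (R ℤ m) = C (2 * m : ℤ) * R ℤ m := by
  have hw := w_mul (Λ := ℤ)
  set v := w ℤ with hv
  have h1 : d⁄dX ℤ v = v ^ 2 := by
    have h2 := congrArg (d⁄dX ℤ) hw
    rw [Derivation.leibniz, map_sub, derivative_X, derivative_one, smul_eq_mul, smul_eq_mul] at h2
    linear_combination v * h2 - (d⁄dX ℤ v) * hw
  have h2 : (2 : ℤ⟦X⟧) = C 2 := rfl
  have hz : d⁄dX ℤ (1 + 2 * (X * v)) = 2 * v ^ 2 := by
    rw [map_add, derivative_one, Derivation.leibniz, h2, derivative_C, Derivation.leibniz, h1,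
      derivative_X, ← h2]
    simp only [smul_eq_mul]
    linear_combination (-2 * v) * hw
  have h6 : (C (2 * m : ℤ) : ℤ⟦X⟧) = 2 * (m : ℤ⟦X⟧) := by
    rw [map_mul, h2]
    congr 1
  rw [h6]
  unfold R
  rw [← hv, derivative_pow, hz]
  rcases Nat.eq_zero_or_pos m with h | h
  · subst h; simp
  · obtain ⟨k, rfl⟩ : ∃ k, m = k + 1 := ⟨m - 1, by omega⟩
    rw [Nat.add_sub_cancel, pow_succ]
    linear_combination (2 * ((k + 1 : ℕ) : ℤ⟦X⟧) * (1 + 2 * (X * v)) ^ k * ((1 + X) * v + 1)) * hw

open MahlerSync in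
lemma R_one (m : ℕ) : coeff 1 (R ℤ m) = 2 * m := by
  have h3 := congrArg (coeff 0) (R_deriv m)
  rw [sub_mul, one_mul, map_sub, coeff_derivative, coeff_X_pow_mul', if_neg (by omega),
    coeff_C_mul, R_const] at h3
  push_cast at h3
  linear_combination h3

open MahlerSync in
lemma R_recurrence (m n : ℕ) : ((n : ℤ) + 2) * coeff (n + 2) (R ℤ m) =
    2 * m * coeff (n + 1) (R ℤ m) + n * coeff n (R ℤ m) := by
  have h3 := congrArg (coeff (n + 1)) (R_deriv m)
  have h4 : coeff (n + 1) (X ^ 2 * d⁄dX ℤ (R ℤ m)) = n * coeff n (R ℤ m) := by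
    rcases Nat.eq_zero_or_pos n with h | h
    · subst h
      rw [coeff_X_pow_mul', if_neg (by omega)]
      simp
    · obtain ⟨k, rfl⟩ : ∃ k, n = k + 1 := ⟨n - 1, by omega⟩
      rw [show k + 1 + 1 = k + 2 by ring, coeff_X_pow_mul, coeff_derivative]
      push_cast
      ring
  rw [sub_mul, one_mul, map_sub, coeff_derivative, h4, coeff_C_mul] at h3
  push_cast at h3
  linear_combination h3

def rl : List ℤ :=
  [1,
   2046,
   2093058,
   1427466238,
   730150027266,
   298778247636990,
   101883869210898434,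
   29779412899533768702,
   7616161261957669519362,
   1731430488650632063666174,
   354256770906928886361714690,
   65893176013634032471331022846,
   11235081724300358310433907490818,
   1768284771758052544423458412881918,
   258431818856976222156437222831878146,
   35251632605560413681009870858226010110,
   4508028647277537753653524118565628936194,
   542585610989348567657666205567538246682622,
   61677904919031311668424639609837794598645762,
   6642221969459204347328789103538040836790675454,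
   679554817590103732912236707467590431618824880130,
   66214064714608188686715978593888440279429272741886,
   6158525795565461642167233497147504573652030387613698,
   547901490134171360514633946552794174562518355990661118,
   46714247349250710157044530574331421927313870876059172866,
   3823598072433601556904197845434112141171964709384194115582,
   300930876851366569325759917711229899806311358780811022331906,
   22807413481100253365904718391974526955823790340121257649776638,
   1666849720897473354194411556708584790321801397543442651357986818,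
   117620356176559316880091223186977510111248720748726446159827068926,
   8023264017647516386352802872138127535391463103034184174574806888450,
   529645457110836733763463139415065525329166442635795286713506125121534,
   33871728224040668211613630229043381520298008922685255691908461756416002,
   2100544695622958881809338024422564412782270618652598266652510043742603262,
   126435245369051269810725801003996946375328683001433587698622841772752105474]

def cl : List ℤ :=
  [1,
   2046,
   2095104,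
   1431652354,
   734434519038,
   301703130142722,
   103382142772525056,
   30393706813584865278,
   7826148395871740098560,
   1792987184082868316903426,
   370053941009334565562861568,
   69498502556076008514990872574,
   11975994126660667417036494202882,
   1906772590454961178515360681961470,
   282171979585383516456660686870218752,
   39010097073069881288222280595085887490,
   5060831610245772717227706243186831484926,
   618510808557119015381050307587534333843458]

lemma rl_check : ∀ n : ℕ, n < 33 → ((n : ℤ) + 2) * rl.getD (n + 2) 0 =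
    2 * 1023 * rl.getD (n + 1) 0 + n * rl.getD n 0 := by decide +kernel

lemma rl_eq (n : ℕ) (hn : n < 35) : coeff n (MahlerSync.R ℤ 1023) = rl.getD n 0 := by
  induction n using Nat.strong_induction_on with
  | _ n ih =>
    match n, hn, ih with
    | 0, _, _ =>
      rw [MahlerSync.R_const]
      rfl
    | 1, _, _ =>
      rw [R_one]
      norm_num [rl]
    | n + 2, hn, ih =>
      have h1 := R_recurrence 1023 n
      rw [ih (n + 1) (by omega) (by omega), ih n (by omega) (by omega)] at h1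
      have h2 := rl_check n (by omega)
      have h3 : ((n : ℤ) + 2) ≠ 0 := by positivity
      apply mul_left_cancel₀ h3
      rw [h1, h2]
      norm_num

/-- the convolution -/
def conv (n : ℕ) : ℤ :=
  ∑ j ∈ Finset.range (n / 2 + 1), rl.getD (n - 2 * j) 0 * cl.getD j 0

lemma F_eq_mul (m : ℕ) : Mahler.F m = MahlerSync.R ℤ m * expand 2 two_ne_zero (Mahler.F m) := by
  have h1 := Mahler.F_eq m
  rw [← MahlerSync.R_eq, mul_assoc] at h1
  exact ((Mahler.isUnit_one_sub_X (Λ := ℤ)).pow m).mul_left_cancel h1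

lemma c_conv (m n : ℕ) : Mahler.c m n =
    ∑ j ∈ Finset.range (n / 2 + 1), coeff (n - 2 * j) (MahlerSync.R ℤ m) * Mahler.c m j := by
  have h1 := congrArg (coeff n) (F_eq_mul m)
  rw [Mahler.F, coeff_mk, mul_comm, coeff_mul, Finset.Nat.sum_antidiagonal_eq_sum_range_succ_mk]
    at h1
  rw [h1]
  symm
  apply Finset.sum_of_injOn (fun j => 2 * j)
  · intro a _ b _ h; simpa using h
  · intro j hj
    simp only [Finset.coe_range, Set.mem_Iio] at hj ⊢
    omega
  · intro i _ hi
    rw [coeff_expand_of_not_dvd, zero_mul]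
    rintro ⟨k, hk⟩
    apply hi
    rw [Finset.mem_range] at *
    refine ⟨k, ?_, hk.symm⟩
    simp only [Finset.coe_range, Set.mem_Iio]
    omega
  · intro j _
    rw [coeff_expand_mul, coeff_mk]
    ring

lemma cl_check : ∀ n : ℕ, 1 ≤ n → n < 18 → conv n = cl.getD n 0 := by decide +kernel

lemma c_eq (n : ℕ) (hn : n < 18) : Mahler.c 1023 n = cl.getD n 0 := by
  induction n using Nat.strong_induction_on with
  | _ n ih =>
    rcases Nat.eq_zero_or_pos n with h | h
    · subst h
      rw [Mahler.c_zero]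
      rfl
    · rw [c_conv, ← cl_check n h hn]
      unfold conv
      apply Finset.sum_congr rfl
      intro j hj
      rw [Finset.mem_range] at hj
      rw [rl_eq _ (by omega), ih j (by omega) (by omega)]

lemma conv_34 : conv 34 = 2 ^ 11 *
    (1 + 2 ^ 13 * 12825041345576594186694338756004653332697636649771948522140304093751) := by
  decide +kernel

lemma c_34 : Mahler.c 1023 34 = 2 ^ 11 *
    (1 + 2 ^ 13 * 12825041345576594186694338756004653332697636649771948522140304093751) := by
  rw [← conv_34, c_conv]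
  unfold conv
  apply Finset.sum_congr rfl
  intro j hj
  rw [Finset.mem_range] at hj
  rw [rl_eq _ (by omega), c_eq j (by omega)]

/-! ### powers of `U` -/

lemma U_pow (U : ℤ) (hU : (2 : ℤ) ^ 14 ∣ U + 4097) (j : ℕ) :
    ∃ o : ℤ, Odd o ∧ U ^ (2 * 2 ^ j) = 1 + 2 ^ (13 + j) * o := by
  induction j with
  | zero =>
    obtain ⟨a, ha⟩ := hU
    refine ⟨1 + 2 ^ 11 - 4 * 4097 * a + 2 ^ 15 * a ^ 2, ?_, ?_⟩
    · rw [Int.odd_iff]
      omega
    · have : U = -4097 + 2 ^ 14 * a := by linear_combination ha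
      rw [this]
      ring
  | succ j ih =>
    obtain ⟨o, ho, h⟩ := ih
    refine ⟨o + 2 ^ (12 + j) * o ^ 2, ?_, ?_⟩
    · apply ho.add_even
      rw [show 12 + j = (11 + j) + 1 by ring, pow_succ]
      exact ⟨2 ^ (11 + j) * o ^ 2, by ring⟩
    · rw [pow_succ, ← mul_assoc, pow_mul, h]
      ring

lemma exists_pow (U q : ℤ) (hU : (2 : ℤ) ^ 14 ∣ U + 4097) (hq : (2 : ℤ) ^ 13 ∣ q - 1) (L : ℕ) :
    ∃ r : ℕ, (2 : ℤ) ^ (13 + L) ∣ U ^ (2 * r) * q - 1 := by
  induction L with
  | zero => exact ⟨0, by simpa using hq⟩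
  | succ L ih =>
    obtain ⟨r, s, hs⟩ := ih
    rcases Int.even_or_odd s with h | h
    · obtain ⟨s', hs'⟩ := h
      refine ⟨r, s', ?_⟩
      rw [hs, hs']
      ring
    · obtain ⟨o, ho, hU2⟩ := U_pow U hU L
      obtain ⟨b, hb⟩ := h.add_odd ho
      refine ⟨r + 2 ^ L, b + 2 ^ (12 + L) * s * o, ?_⟩
      rw [mul_add, pow_add, hU2]
      have h2 : s = 2 * b - o := by linear_combination hb
      have h3 : U ^ (2 * r) * q = 1 + 2 ^ (13 + L) * s := by linear_combination hs
      have h4 : U ^ (2 * r) * (1 + 2 ^ (13 + L) * o) * q - 1 =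
          (U ^ (2 * r) * q) * (1 + 2 ^ (13 + L) * o) - 1 := by ring
      rw [h4, h3]
      have h5 : (1 + 2 ^ (13 + L) * s) * (1 + 2 ^ (13 + L) * o) - 1 =
          2 ^ (13 + L) * (s + o) + 2 ^ (13 + L) * 2 ^ (13 + L) * s * o := by ring
      rw [h5, hb]
      ring

/-! ### assembly -/

section
open MahlerSync MahlerEps Mahler

lemma map_w {A B : Type*} [CommRing A] [CommRing B] (f : A →+* B) :
    PowerSeries.map f (w A) = w B := by
  unfold w
  ext n
  simp

lemma map_R {A B : Type*} [CommRing A] [CommRing B] (f : A →+* B) (m : ℕ) :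
    PowerSeries.map f (R A m) = R B m := by
  unfold R
  simp only [map_pow, map_add, map_one, map_mul, map_w, PowerSeries.map_X, map_ofNat]

lemma map_S {A B : Type*} [CommRing A] [CommRing B] (f : A →+* B) (m i : ℕ) (H : A⟦X⟧) :
    PowerSeries.map f (S m i H) = S m i (PowerSeries.map f H) := by
  unfold S
  ext n
  rw [coeff_map, coeff_sec, coeff_sec, ← map_R f, ← map_mul, coeff_map]

lemma map_FΛ {A B : Type*} [CommRing A] [CommRing B] (f : A →+* B) (m : ℕ) :
    PowerSeries.map f (FΛ A m) = FΛ B m := by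
  ext n
  rw [coeff_map, coeff_FΛ, coeff_FΛ, map_intCast]

lemma per_e' (Λ : Type*) [CommRing Λ] {K : ℕ} (hK : (2 : Λ) ^ K = 0) : Per (e' Λ) := by
  have h1 : Per (X * w Λ * w Λ) := per_w.z_mul hK
  have h2 : Per (X * w Λ * (X * w Λ * w Λ)) := h1.z_mul hK
  have h3 : e' Λ = w Λ - (C 4096 * (X * w Λ * (X * w Λ * w Λ)) + C 6144 * (X * w Λ * w Λ)) := by
    have e1 : (C 4096 : Λ⟦X⟧) = 4096 := rfl
    have e2 : (C 6144 : Λ⟦X⟧) = 6144 := rfl
    unfold e'
    rw [e1, e2]
    ring
  rw [h3]
  exact per_w.sub ((h2.C_mul _).add (h1.C_mul _))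

lemma e'_zero (Λ : Type*) [CommRing Λ] : coeff 0 (e' Λ) = 1 := by
  unfold e' w
  rw [coeff_zero_eq_constantCoeff_apply]
  simp

lemma d'_zero (Λ : Type*) [CommRing Λ] : coeff 0 (d' Λ) = -4097 := by
  unfold d' w
  rw [coeff_zero_eq_constantCoeff_apply]
  have h : constantCoeff (4097 : Λ⟦X⟧) = 4097 := map_ofNat _ _
  simp [h]

/-- `U` modulo `2^14` -/
lemma U_mod (K : ℕ) (hK : 14 ≤ K) (e : (ZMod (2 ^ K))⟦X⟧) (he : Per e) (he0 : coeff 0 e = 1)
    (heS : S 1023 0 e = e) (U : ℤ) (hU : (U : ZMod (2 ^ K)) = coeff 1 (e * FΛ _ 1023)) :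
    (2 : ℤ) ^ 14 ∣ U + 4097 := by
  have hdvd : 2 ^ 14 ∣ 2 ^ K := pow_dvd_pow 2 hK
  set f : ZMod (2 ^ K) →+* ZMod (2 ^ 14) := ZMod.castHom hdvd (ZMod (2 ^ 14)) with hf
  have h14 : (2 : ZMod (2 ^ 14)) ^ 14 = 0 := by decide +kernel
  have h14' : (16384 : (ZMod (2 ^ 14))⟦X⟧) = 0 := by
    have e1 : (C 16384 : (ZMod (2 ^ 14))⟦X⟧) = 16384 := rfl
    have e2 : (16384 : ZMod (2 ^ 14)) = 0 := by decide +kernel
    rw [← e1, e2, map_zero]
  have hstep := step_e' h14'
  have hS := isStep_unique hstep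
  have h1 : PowerSeries.map f e = e' (ZMod (2 ^ 14)) := by
    rw [← sub_eq_zero]
    apply fixed_zero h14 1023
    · apply Per.sub
      · obtain ⟨P, hP⟩ := he
        exact ⟨P, fun n => by rw [coeff_map, coeff_map, hP]⟩
      · exact per_e' _ h14
    · rw [map_sub, coeff_map, he0, e'_zero, map_one, sub_self]
    · rw [S_sub, ← map_S, heS, hS.1]
  have h2 := congrArg f hU
  rw [← coeff_map, map_mul, map_FΛ, h1, map_intCast] at h2
  have h3 : coeff (2 * 0 + 1) (e' (ZMod (2 ^ 14)) * FΛ _ 1023) = coeff 0 (d' _ * FΛ _ 1023) :=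
    coeff_step_odd hstep 0
  rw [mul_zero, zero_add, coeff_zero_mul, d'_zero] at h3
  rw [h3] at h2
  have h4 : ((U + 4097 : ℤ) : ZMod (2 ^ 14)) = 0 := by
    push_cast
    rw [h2]
    ring
  rw [ZMod.intCast_zmod_eq_zero_iff_dvd] at h4
  exact_mod_cast h4

lemma exists_n (C : ℕ) : ∃ n, 1 ≤ n ∧ ∃ s : ℤ, c 1023 n = 2 ^ 11 * (1 + 2 ^ (C + 13) * s) := by
  obtain ⟨K, hKdef⟩ : ∃ K, K = C + 24 := ⟨_, rfl⟩
  have hK : (2 : ZMod (2 ^ K)) ^ K = 0 := by
    have h := ZMod.natCast_self (2 ^ K)
    rwa [Nat.cast_pow, Nat.cast_ofNat] at h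
  obtain ⟨e, he, he0, heS, hT⟩ := exists_eps hK 1023
  obtain ⟨U, hU⟩ := ZMod.intCast_surjective (coeff 1 (e * FΛ (ZMod (2 ^ K)) 1023))
  have hU14 := U_mod K (by omega) e he he0 heS U hU
  set q : ℤ := 1 + 2 ^ 13 * 12825041345576594186694338756004653332697636649771948522140304093751
    with hq
  obtain ⟨r, hr⟩ := exists_pow U q hU14
    (by rw [hq, add_sub_cancel_left]; exact Dvd.intro _ rfl) (C + 11)
  have hiter : ∀ i, ∃ n, 1 ≤ n ∧ (Mahler.c 1023 n : ZMod (2 ^ K)) = ((U ^ i * (2 ^ 11 * q) : ℤ) :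
      ZMod (2 ^ K)) := by
    intro i
    induction i with
    | zero =>
      refine ⟨34, by norm_num, ?_⟩
      rw [c_34, ← hq, pow_zero, one_mul]
    | succ i ih =>
      obtain ⟨n, hn, h⟩ := ih
      obtain ⟨n', hn', h'⟩ := exists_next 1023 hK hT n hn
      refine ⟨n', hn', ?_⟩
      rw [h', h, ← hU]
      push_cast
      ring
  obtain ⟨n, hn, h⟩ := hiter (2 * r)
  refine ⟨n, hn, ?_⟩
  rw [ZMod.intCast_eq_intCast_iff_dvd_sub] at h
  obtain ⟨a, ha⟩ := h
  obtain ⟨b, hb⟩ := hr
  refine ⟨2 ^ 11 * b - a, ?_⟩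
  have hc : c 1023 n = Mahler.c 1023 n := rfl
  rw [hc]
  push_cast at ha
  have e1 : (2 : ℤ) ^ K = 2 ^ 11 * 2 ^ (C + 13) := by rw [← pow_add]; congr 1; omega
  have e2 : (2 : ℤ) ^ (13 + (C + 11)) = 2 ^ 11 * 2 ^ (C + 13) := by rw [← pow_add]; congr 1; omega
  rw [e1] at ha
  rw [e2] at hb
  linear_combination (2 ^ 11 : ℤ) * hb - ha

end

lemma oddPart_eq (e : ℕ) (w : ℤ) (hw : Odd w) : oddPart (2 ^ e * w) = w := by
  have hw0 : w ≠ 0 := by rintro rfl; simp at hw
  have h1 : padicValInt 2 (2 ^ e * w) = e := by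
    have := Fact.mk Nat.prime_two
    rw [padicValInt.mul (by positivity) hw0]
    have h2 : padicValInt 2 w = 0 := by
      apply padicValInt.eq_zero_of_not_dvd
      have := Int.odd_iff.1 hw
      push_cast
      omega
    have h3 : padicValInt 2 (2 ^ e) = e := by
      unfold padicValInt
      rw [Int.natAbs_pow]
      exact padicValNat.prime_pow e
    rw [h2, h3, add_zero]
  unfold oddPart
  rw [h1, Int.mul_ediv_cancel_left _ (by positivity)]

theorem unbounded (C : ℕ) : ∃ n, 1 ≤ n ∧ (C : ℕ∞) < u 1023 n := by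
  obtain ⟨n, hn, s, h⟩ := exists_n C
  refine ⟨n, hn, ?_⟩
  unfold u
  have hodd : Odd (1 + 2 ^ (C + 13) * s) := by
    apply Odd.add_even odd_one
    rw [pow_succ]
    exact ⟨2 ^ (C + 12) * s, by ring⟩
  rw [h, oddPart_eq 11 _ hodd, add_sub_cancel_left]
  have h1 : ((C + 13 : ℕ) : ℕ∞) ≤ emultiplicity (2 : ℤ) (2 ^ (C + 13) * s) :=
    le_emultiplicity_of_pow_dvd (Dvd.intro _ rfl)
  refine lt_of_lt_of_le ?_ h1
  exact_mod_cast (by omega : C < C + 13)

theorem result : (∀ C : ℕ, ∃ n, 1 ≤ n ∧ (C : ℕ∞) < u (2 ^ (2 * 5) - 1) n) ∧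
    ¬ ∀ k, 1 ≤ k → ∃ C : ℕ, ∀ n, 1 ≤ n → u (2 ^ (2 * k) - 1) n ≤ C := by
  have h1 : ∀ C : ℕ, ∃ n, 1 ≤ n ∧ (C : ℕ∞) < u (2 ^ (2 * 5) - 1) n := unbounded
  refine ⟨h1, fun h => ?_⟩
  obtain ⟨C, hC⟩ := h 5 (by norm_num)
  obtain ⟨n, hn, h2⟩ := h1 C
  exact absurd (hC n hn) (not_le.2 h2)

end Pool.Agent.Results.MP_8a294c_nt.UnboundedForFive
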